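import Pool.Agent.V11211.CI2

/-!
# Convexly independent subsets of `A + A` of size `2n - k` for `n ≤ 2 ^ (k - 1) (2 ^ k - 1)`

For `1 ≤ n ≤ 2 ^ (k - 1) (2 ^ k - 1)` we construct a convex `n`-point set `A` in the plane and a
convexly independent subset `X` of `A + A` with at least `2n - k` elements. With the known upper
bound `2n - 2` this gives the exact value `2n - 2` for `3 ≤ n ≤ 6` (`k = 2`), and
`2n - (log₂ n) / 2 - 2 < g n ≤ 2n - 2` in general.

The set `A` is the union of a concave chain `B` of `b ≤ 2 ^ k - 1` points and of at most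
`b (b - 1) / 2` points far below `B`.

* (`V11211/CI.lean`) By a recursive construction `B` can be chosen such that `B + B` contains a
  concave chain of `2b - ⌊log₂ b⌋ - 1 ≥ 2b - k` points: a block of `k' + 1` points of `B` gives the
  `2k' + 1` sums `a_0 + a_0, ..., a_0 + a_k', a_1 + a_(k' + 1), ..., a_k' + a_(2k')`, and one
  continues with the remaining, at least `k'`, points.
* (`V11211/CI2.lean`) After a small perturbation the `b (b - 1) / 2` chords of `B` have different
  slopes. For each slope `m` of a chord `uv` one can add the point `x = (L m, L m ^ 2 / 2 - H)`, with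
  `L` and then `H` large, and the two sums `x + u` and `x + v`.
-/

set_option autoImplicit false

namespace Pool.Agent.Results.MP_3fce03_co.TwoNMinusHalfLog

/-- The finite set `X` of points of the plane is convexly independent: no point of `X` lies in the
convex hull of the other ones. -/
def ConvIndep (X : Finset (ℝ × ℝ)) : Prop :=
  ∀ x ∈ X, x ∉ convexHull ℝ ((X : Set (ℝ × ℝ)) \ {x})

/-- The largest size of a convexly independent subset `X` of `A + A`, for a convex `n`-point
set `A`. -/
noncomputable def g (n : ℕ) : ℕ :=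
  sSup {m : ℕ | ∃ A X : Finset (ℝ × ℝ), A.card = n ∧ ConvIndep A ∧
    (∀ x ∈ X, ∃ a ∈ A, ∃ b ∈ A, x = a + b) ∧ ConvIndep X ∧ X.card = m}

/-- **Theorem.** For `1 ≤ n ≤ 2 ^ (k - 1) * (2 ^ k - 1)` some convex `n`-point set `A` of the plane
has a convexly independent subset of `A + A` with at least `2n - k` elements. -/
theorem result (n k : ℕ) (hn : 1 ≤ n) (hk : 1 ≤ k) (h : n ≤ 2 ^ (k - 1) * (2 ^ k - 1)) :
    2 * n - k ≤ g n := by
  obtain ⟨A, X, hA, hAi, hs, hX, hc⟩ := Pool.Agent.V11211.CI.exists_sets' hk hn h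
  refine hc.trans ?_
  unfold g
  refine le_csSup ?_ ⟨A, X, hA, hAi, hs, hX, rfl⟩
  refine ⟨n * n, ?_⟩
  rintro m ⟨A', X', hA', -, hX', -, rfl⟩
  have h1 : X' ⊆ (A' ×ˢ A').image fun p => p.1 + p.2 := by
    intro x hx
    obtain ⟨a, ha, b, hb, rfl⟩ := hX' x hx
    exact Finset.mem_image.2 ⟨(a, b), Finset.mem_product.2 ⟨ha, hb⟩, rfl⟩
  calc X'.card ≤ ((A' ×ˢ A').image fun p => p.1 + p.2).card := Finset.card_le_card h1
    _ ≤ (A' ×ˢ A').card := Finset.card_image_le
    _ = n * n := by rw [Finset.card_product, hA']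

end Pool.Agent.Results.MP_3fce03_co.TwoNMinusHalfLog
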